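import Pool.Agent.N940.MN.Main

/-!
# The number of components of a random meandric system: central limit theorem

Kargin's question: for a uniformly random meandric system of size `n` (a pair of non-crossing
perfect matchings of `2 n` points, drawn in the upper and in the lower half-plane) the number of
components, centred by its mean and divided by its standard deviation, converges in distribution to
the standard normal law. The standard deviation is at least of the order of the square root of `n`.

Method (`Pool/Agent/N940/MN`): cut the words which encode the two matchings into two parts; the
number of closed curves through the junction is a constant times the number of arcs joined there, up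
to an error which is small compared with the square root of the length. This is shown by counting
the curves in windows of consecutive nested arcs, which are independent; most ends of a window are
joined inside the window, because there are infinitely many scales at which a window has few other
ends. So a corrected number of closed curves is asymptotically additive.
-/

set_option autoImplicit false

namespace Pool.Agent.Results.MP_b7689d_pr.CentralLimit

open Filter Topology MeasureTheory ProbabilityTheory

/-- `σ` is an arc system of size `n`: a non-crossing perfect matching of `2 n` points on the line,
that is an involution without fixed point (the partner of `i` is `σ i`) with no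
`i < k < σ i < σ k`. -/
def IsMatching (n : ℕ) (σ : Fin (2 * n) → Fin (2 * n)) : Prop :=
  (∀ i, σ (σ i) = i) ∧ (∀ i, σ i ≠ i) ∧ ∀ i k, ¬ (i < k ∧ k < σ i ∧ σ i < σ k)

open Classical in
/-- The meandric systems of size `n`. -/
noncomputable def systems (n : ℕ) :
    Finset ((Fin (2 * n) → Fin (2 * n)) × (Fin (2 * n) → Fin (2 * n))) :=
  Finset.univ.filter fun p => IsMatching n p.1 ∧ IsMatching n p.2

/-- The number of components: the closed curves are the classes of the equivalence relation on the
points which is generated by the arcs of both matchings. -/
noncomputable def components (n : ℕ)
    (p : (Fin (2 * n) → Fin (2 * n)) × (Fin (2 * n) → Fin (2 * n))) : ℕ :=
  Nat.card (Quot fun i j : Fin (2 * n) => p.1 i = j ∨ p.2 i = j)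

/-- The mean of the number of components of a uniformly random meandric system of size `n`. -/
noncomputable def mean (n : ℕ) : ℝ :=
  (∑ p ∈ systems n, (components n p : ℝ)) / ((systems n).card : ℝ)

/-- The variance of the number of components of a uniformly random meandric system. -/
noncomputable def variance (n : ℕ) : ℝ :=
  (∑ p ∈ systems n, ((components n p : ℝ) - mean n) ^ 2) / ((systems n).card : ℝ)

open Classical in
/-- The distribution function of the normalised number of components. -/
noncomputable def distr (n : ℕ) (x : ℝ) : ℝ :=
  (((systems n).filter fun p => ((components n p : ℝ) - mean n) / √(variance n) ≤ x).card : ℝ) /
    ((systems n).card : ℝ)

/-- **Central limit theorem for the number of components of a random meandric system.** The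
variance is at least of order `n`, and the distribution functions of the number of components,
centred by the mean and divided by the standard deviation, converge at every point to the one of the
standard normal law. -/
theorem result :
    (∃ c : ℝ, 0 < c ∧ ∀ᶠ n : ℕ in atTop, c * n ≤ variance n) ∧
    ∀ x : ℝ, Tendsto (fun n => distr n x) atTop (𝓝 ((gaussianReal 0 1).real (Set.Iic x))) :=
  Pool.Agent.N940.MN.Main.clt

end Pool.Agent.Results.MP_b7689d_pr.CentralLimit
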